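import Pool.Agent.Helper38.RT.Defs

/-! WORDS: elementary facts on periods of words and on the log. -/

set_option autoImplicit false

namespace Pool.Agent.Helper51.RT

open Pool.Agent.Helper38.RT

theorem compat_take {p t : List Bool} {s q q' : ℕ} (hq : q ≤ q')
    (h : Compat p (t.take q') s) : Compat p (t.take q) s := by
  intro j h1 h2
  rw [List.length_take] at h1
  have h3 := h j (by rw [List.length_take]; omega) h2
  rw [List.getElem?_take_of_lt (by omega)] at h3 ⊢
  exact h3

theorem compat_self (p : List Bool) (q : ℕ) : Compat p (p.take q) q := by
  intro j h1 h2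
  rw [List.length_take] at h1
  omega

theorem per_of_pos (p : List Bool) {q : ℕ} (hq : 0 < q) :
    per p q = sInf {s | 0 < s ∧ Compat p (p.take q) s} := by
  unfold per
  rw [if_neg (by omega)]

theorem per_mem (p : List Bool) {q : ℕ} (hq : 0 < q) :
    0 < per p q ∧ Compat p (p.take q) (per p q) := by
  rw [per_of_pos p hq]
  exact Nat.sInf_mem (s := {s | 0 < s ∧ Compat p (p.take q) s}) ⟨q, hq, compat_self p q⟩

theorem per_le_of (p : List Bool) {q s : ℕ} (hq : 0 < q) (hs : 0 < s)
    (h : Compat p (p.take q) s) : per p q ≤ s := by
  rw [per_of_pos p hq]
  exact Nat.sInf_le ⟨hs, h⟩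

theorem per_zero (p : List Bool) : per p 0 = 0 := by simp [per]

theorem per_le (p : List Bool) (q : ℕ) : per p q ≤ q := by
  rcases Nat.eq_zero_or_pos q with rfl | hq
  · rw [per_zero]
  · exact per_le_of p hq hq (compat_self p q)

theorem per_mono (p : List Bool) (q q' : ℕ) (h : q ≤ q') : per p q ≤ per p q' := by
  rcases Nat.eq_zero_or_pos q with rfl | hq
  · rw [per_zero]; exact Nat.zero_le _
  · obtain ⟨h1, h2⟩ := per_mem p (q := q') (by omega)
    exact per_le_of p hq h1 (compat_take h h2)

theorem per_eq (p : List Bool) (q j : ℕ) (h1 : q < j)
    (h3 : Compat p (p.take j) (j - q))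
    (h4 : ∀ s, 0 < s → s < j - q → ¬ Compat p (p.take j) s) : per p j = j - q := by
  apply le_antisymm
  · exact per_le_of p (by omega) (by omega) h3
  · by_contra hlt
    obtain ⟨h5, h6⟩ := per_mem p (q := j) (by omega)
    exact h4 _ h5 (by omega) h6

theorem mono (p t : List Bool) (x : Bool) (s : ℕ) (h : Compat p (t ++ [x]) s) : Compat p t s := by
  intro j h1 h2
  have := h j (by simp; omega) h2
  rw [List.getElem?_append_left h1] at this
  exact this

theorem mtch (p t : List Bool) (x : Bool) (q : ℕ) (hq : q ≤ t.length) (hx : p[q]? = some x)
    (h : Compat p t (t.length - q)) : Compat p (t ++ [x]) (t.length - q) := by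
  intro j h1 h2
  rw [List.length_append, List.length_singleton] at h1
  by_cases h3 : t.length - q + j < t.length
  · rw [List.getElem?_append_left h3]
    exact h j h3 h2
  · have hj : j = q := by omega
    subst hj
    have : t.length - j + j = t.length := by omega
    rw [this, hx]
    simp

theorem mism (p t : List Bool) (x : Bool) (q : ℕ) (hq : q ≤ t.length) (hqp : q < p.length)
    (hx : p[q]? ≠ some x) : ¬ Compat p (t ++ [x]) (t.length - q) := by
  intro h
  apply hx
  have h1 := h q (by simp; omega) hqp
  rw [← h1]
  have : t.length - q + q = t.length := by omega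
  rw [this]
  simp

theorem shift (p t : List Bool) (q : ℕ) (hq : 0 < q) (hqt : q ≤ t.length) (hqp : q ≤ p.length)
    (h : Compat p t (t.length - q)) : Compat p t (t.length - (q - per p q)) := by
  intro j h1 h2
  obtain ⟨h3, h4⟩ := per_mem p hq
  have h5 := per_le p q
  have h6 := h4 j (by rw [List.length_take]; omega) h2
  rw [List.getElem?_take_of_lt (by omega)] at h6
  have h7 := h (per p q + j) (by omega) (by omega)
  rw [h6] at h7
  rw [← h7]
  congr 1
  omega

theorem gap (p t : List Bool) (q s : ℕ) (hq : 0 < q) (hqt : q ≤ t.length) (hqp : q ≤ p.length)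
    (h : Compat p t (t.length - q)) (h1 : t.length - q < s) (h2 : s < t.length - q + per p q) :
    ¬ Compat p t s := by
  intro hs
  have h5 := per_le p q
  have : per p q ≤ s - (t.length - q) := by
    apply per_le_of p hq (by omega)
    intro j h3 h4
    rw [List.length_take] at h3
    rw [List.getElem?_take_of_lt (by omega)]
    have h6 := h (s - (t.length - q) + j) (by omega) (by omega)
    have h7 := hs j (by omega) h4
    rw [← h6, ← h7]
    congr 1
    omega
  omega

theorem occ (p u₁ u₂ : List Bool) (N : ℕ) :
    Compat p ((u₁ ++ p ++ u₂).take N) u₁.length := by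
  intro j h1 h2
  rw [List.length_take] at h1
  rw [List.getElem?_take_of_lt (by omega), List.append_assoc,
    List.getElem?_append_right (by omega), Nat.add_sub_cancel_left,
    List.getElem?_append_left h2]

theorem full (p t : List Bool) (hpt : p.length ≤ t.length)
    (h : Compat p t (t.length - p.length)) : ∃ u₁, t = u₁ ++ p := by
  refine ⟨t.take (t.length - p.length), ?_⟩
  have : t.drop (t.length - p.length) = p := by
    apply List.ext_getElem?
    intro j
    rw [List.getElem?_drop]
    by_cases hj : j < p.length
    · exact h j (by omega) hj
    · rw [List.getElem?_eq_none (by omega), List.getElem?_eq_none (by omega)]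
  conv_lhs => rw [← List.take_append_drop (t.length - p.length) t]
  rw [this]

theorem len (p : List Bool) (n : ℕ) : (TT p n).length = n + per p n := by
  induction n with
  | zero => simp [TT, per_zero]
  | succ n ih =>
    have := per_mono p n (n + 1) (by omega)
    rw [TT, List.length_append, ih, List.length_cons, List.length_replicate]
    omega

theorem count_sp (p : List Bool) (n : ℕ) : (TT p n).count Tk.sp = n := by
  induction n with
  | zero => simp [TT]
  | succ n ih =>
    rw [TT, List.count_append, ih, List.count_cons_self]
    have : (List.replicate (per p (n + 1) - per p n) Tk.tk).count Tk.sp = 0 := by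
      rw [List.count_replicate]; simp
    rw [this]

theorem count_tk (p : List Bool) (n : ℕ) : (TT p n).count Tk.tk = per p n := by
  induction n with
  | zero => simp [TT, per_zero]
  | succ n ih =>
    have := per_mono p n (n + 1) (by omega)
    rw [TT, List.count_append, ih, List.count_cons_of_ne (by decide), List.count_replicate_self]
    omega

theorem pos (p : List Bool) (n : ℕ) : ∀ (r l₁ l₂ : List Tk), l₁ ++ l₂ = TT p n ++ r →
    l₁.count .sp < n →
    l₂ ≠ [] ∧ l₁.count .tk ≤ per p (l₁.count .sp) ∧
      (l₂.head? = some .sp → l₁.count .tk = per p (l₁.count .sp)) := by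
  induction n with
  | zero => intro r l₁ l₂ _ h; omega
  | succ n ih =>
    intro r l₁ l₂ h1 h2
    rw [TT, List.append_assoc] at h1
    rcases Nat.lt_or_ge (l₁.count .sp) n with h3 | h3
    · exact ih _ l₁ l₂ h1 h3
    · have h4 : l₁.count .sp = n := by omega
      rw [h4]
      rw [List.append_eq_append_iff] at h1
      rcases h1 with ⟨a, ha1, ha2⟩ | ⟨a, ha1, ha2⟩
      · -- TT p n = l₁ ++ a, l₂ = a ++ rest
        have c1 := count_sp p n
        have c2 := count_tk p n
        rw [ha1, List.count_append] at c1 c2
        refine ⟨?_, by omega, ?_⟩
        · rw [ha2]; simp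
        · intro hh
          rw [ha2] at hh
          cases a with
          | nil => simpa using c2
          | cons y a =>
            simp only [List.cons_append, List.head?_cons, Option.some.injEq] at hh
            subst hh
            rw [List.count_cons_self] at c1
            omega
      · -- l₁ = TT p n ++ a
        have c1 := count_sp p n
        cases a with
        | nil =>
          simp only [List.append_nil] at ha1
          rw [← ha1] at c1
          have c2 := count_tk p n
          rw [← ha1] at c2
          refine ⟨?_, by omega, ?_⟩
          · intro hl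
            rw [hl] at ha2
            simp at ha2
          · intro _; exact c2
        | cons y a =>
          rw [ha1, List.count_append] at h4
          simp only [List.cons_append, List.cons.injEq] at ha2
          rw [← ha2.1, List.count_cons_self] at h4
          omega

/-- part WORDS -/
theorem words_thm : S_WORDS where
  per_zero := per_zero
  per_pos := fun p _ hq => (per_mem p hq).1
  per_le := per_le
  per_mono := per_mono
  per_eq := fun p q j h1 _ h3 h4 => per_eq p q j h1 h3 h4
  mono := mono
  mtch := mtch
  mism := mism
  shift := shift
  gap := gap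
  occ := occ
  full := full
  len := len
  pos := pos

end Pool.Agent.Helper51.RT
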